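import Mathlib
import Pool.Agent.Y4.P.Jobs

/-!
# Lines and complex multiplication
-/

set_option linter.unusedSectionVars false

namespace Pool.Agent.Y145.P

open Matrix Module Pool.Agent.Y90 Pool.Agent.Y4.P Pool.Agent.W437.HC Pool.Agent.W437.HD
open Pool.Agent.W548.Odd hiding cv
open Pool.Agent.W437.HP (cK cK_mul cK_one)

noncomputable section

variable {g : ℕ} {Z : Matrix (Fin g) (Fin g) ℂ}

/-- Rational matrices which commute with the complex structure commute with the Lie algebra. -/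
theorem comm_LZ {u : Matrix (Fin g ⊕ Fin g) (Fin g ⊕ Fin g) ℚ}
    (hu : qm u * DZ Z = DZ Z * qm u) : ∀ X ∈ LZ Z, qm u * X = X * qm u := by
  let C : Submodule ℂ (Matrix (Fin g ⊕ Fin g) (Fin g ⊕ Fin g) ℂ) :=
    { carrier := {X | qm u * X = X * qm u}
      add_mem' := fun {a b} ha hb => by
        change qm u * (a + b) = (a + b) * qm u
        have ha' : qm u * a = a * qm u := ha
        have hb' : qm u * b = b * qm u := hb
        rw [mul_add, add_mul, ha', hb']
      zero_mem' := by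
        change qm u * 0 = 0 * qm u
        rw [mul_zero, zero_mul]
      smul_mem' := fun c a ha => by
        change qm u * (c • a) = (c • a) * qm u
        have ha' : qm u * a = a * qm u := ha
        rw [mul_smul_comm, smul_mul_assoc, ha'] }
  have h1 : LZ Z ≤ C := by
    refine LZ_le (fun σ => ?_) (fun A hA A' hA' => ?_)
    · change qm u * DS Z σ = DS Z σ * qm u
      have h2 := congrArg (fun M : Matrix (Fin g ⊕ Fin g) (Fin g ⊕ Fin g) ℂ => M.map σ) hu
      simp only [Matrix.map_mul] at h2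
      have h3 : (qm u).map σ = qm u := by
        ext i j
        simp
      rw [h3] at h2
      exact h2
    · change qm u * (A * A' - A' * A) = (A * A' - A' * A) * qm u
      have hA1 : qm u * A = A * qm u := hA
      have hA2 : qm u * A' = A' * qm u := hA'
      rw [mul_sub, sub_mul, ← mul_assoc, ← mul_assoc, hA1, hA2, mul_assoc, mul_assoc, hA1, hA2,
        mul_assoc, mul_assoc]
  exact fun X hX => h1 hX

/-- A rational matrix which commutes with the complex structure of a simple abelian variety and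
kills a nonzero rational vector is zero. -/
theorem eq_zero_of_kill (h : PM Z) (hs : IsSimpleAV Z)
    {u : Matrix (Fin g ⊕ Fin g) (Fin g ⊕ Fin g) ℚ} (hu : qm u * DZ Z = DZ Z * qm u)
    {v0 : Fin g ⊕ Fin g → ℚ} (hv0 : v0 ≠ 0) (hk : u *ᵥ v0 = 0) : u = 0 := by
  rcases hdivZ h.isPer (Set.mem_singleton Z) hs u (by
    intro X hX
    rw [← img_eq] at hX
    exact comm_LZ hu X hX) with h1 | h1
  · exact h1
  · exfalso
    have h2 := qm_mulVec u v0
    rw [hk] at h2
    have h3 : (fun i => (((0 : Fin g ⊕ Fin g → ℚ) i : ℚ) : ℂ)) = qm u *ᵥ 0 := by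
      rw [mulVec_zero]
      funext i
      simp
    rw [h3] at h2
    have h4 := (Matrix.mulVec_injective_iff_isUnit.2 h1) h2
    apply hv0
    funext i
    have h5 : ((v0 i : ℚ) : ℂ) = 0 := congrFun h4 i
    rw [Pi.zero_apply]
    exact_mod_cast h5

/-- The first basis vector. -/
def e0 (hg : 0 < g) : Fin g ⊕ Fin g → ℚ := Pi.single (Sum.inl ⟨0, hg⟩) 1

theorem e0_ne (hg : 0 < g) : e0 hg ≠ 0 := by
  intro h0
  have h1 := congrFun h0 (Sum.inl ⟨0, hg⟩)
  simp [e0] at h1

theorem qm_sub' (a b : Matrix (Fin g ⊕ Fin g) (Fin g ⊕ Fin g) ℚ) :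
    qm (a - b) = qm a - qm b := by
  ext i j
  simp [qm]

/-- The values of an algebra with complex multiplication at the first basis vector. -/
theorem exists_value (h : PM Z) (hs : IsSimpleAV Z) (hg : 0 < g)
    {A : Subalgebra ℚ (Matrix (Fin g ⊕ Fin g) (Fin g ⊕ Fin g) ℚ)} (hfr : finrank ℚ A = 2 * g)
    (hc : ∀ a ∈ A, qm a * DZ Z = DZ Z * qm a) (w : Fin g ⊕ Fin g → ℚ) :
    ∃ a ∈ A, a *ᵥ e0 hg = w := by
  let ev : A →ₗ[ℚ] (Fin g ⊕ Fin g → ℚ) :=
    { toFun := fun a => (a : Matrix (Fin g ⊕ Fin g) (Fin g ⊕ Fin g) ℚ) *ᵥ e0 hg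
      map_add' := fun a b => add_mulVec _ _ _
      map_smul' := fun c a => smul_mulVec _ _ _ }
  have hinj : Function.Injective ev := by
    rw [injective_iff_map_eq_zero]
    intro a ha
    exact Subtype.ext (eq_zero_of_kill h hs (hc a.1 a.2) (e0_ne hg) ha)
  have hsur : Function.Surjective ev := by
    refine (LinearMap.injective_iff_surjective_of_finrank_eq_finrank ?_).1 hinj
    rw [hfr, Module.finrank_fintype_fun_eq_card, Fintype.card_sum, Fintype.card_fin]
    ring
  obtain ⟨a, ha⟩ := hsur w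
  exact ⟨a.1, a.2, ha⟩

/-- The rational endomorphisms commute if there is an algebra with complex multiplication. -/
theorem comm_of_cm (h : PM Z) (hs : IsSimpleAV Z) (hg : 0 < g) (hcm : HasCM Z)
    {u v : Matrix (Fin g ⊕ Fin g) (Fin g ⊕ Fin g) ℚ} (hu : qm u * DZ Z = DZ Z * qm u)
    (hv : qm v * DZ Z = DZ Z * qm v) : u * v = v * u := by
  obtain ⟨A, hA, hfr, hc⟩ := hcm
  have key : ∀ w : Matrix (Fin g ⊕ Fin g) (Fin g ⊕ Fin g) ℚ, qm w * DZ Z = DZ Z * qm w → w ∈ A := by
    intro w hw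
    obtain ⟨a, ha, h1⟩ := exists_value h hs hg hfr hc (w *ᵥ e0 hg)
    have h2 : w - a = 0 := by
      refine eq_zero_of_kill h hs ?_ (e0_ne hg) ?_
      · rw [qm_sub', sub_mul, mul_sub, hw, hc a ha]
      · rw [sub_mulVec, h1, sub_self]
    rw [sub_eq_zero.1 h2]
    exact ha
  exact hA u (key u hu) v (key v hv)

/-- Complex endomorphisms commute if there is an algebra with complex multiplication. -/
theorem comm_of_cm' (h : PM Z) (hs : IsSimpleAV Z) (hg : 0 < g) (hcm : HasCM Z)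
    {P Q : Matrix (Fin g ⊕ Fin g) (Fin g ⊕ Fin g) ℂ} (hP : ∀ X ∈ LZ Z, P * X = X * P)
    (hQ : ∀ X ∈ LZ Z, Q * X = X * Q) : P * Q = Q * P := by
  have h1 := exp_mem (Z := Z) (Z₁ := Z) (Q := P) fun σ => hP _ (DS_mem σ)
  have h2 := exp_mem (Z := Z) (Z₁ := Z) (Q := Q) fun σ => hQ _ (DS_mem σ)
  have h3 : ∀ C ∈ TT Z Z, ∀ C' ∈ TT Z Z, C * C' = C' * C := by
    rintro _ ⟨R, rfl, hR⟩ _ ⟨R', rfl, hR'⟩
    rw [← cK_mul, ← cK_mul]
    exact congrArg (cK ℂ) (comm_of_cm h hs hg hcm hR hR')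
  clear hP hQ
  induction h1 using Submodule.span_induction with
  | mem X hX =>
    induction h2 using Submodule.span_induction with
    | mem Y hY => exact h3 X hX Y hY
    | zero => rw [mul_zero, zero_mul]
    | add Y Y' _ _ hY hY' => rw [mul_add, add_mul, hY, hY']
    | smul c Y _ hY => rw [mul_smul_comm, smul_mul_assoc, hY]
  | zero => rw [mul_zero, zero_mul]
  | add X X' _ _ hX hX' => rw [mul_add, add_mul, hX, hX']
  | smul c X _ hX => rw [mul_smul_comm, smul_mul_assoc, hX]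

theorem toMatrix'_comm {T : (Fin g ⊕ Fin g → ℂ) →ₗ[ℂ] (Fin g ⊕ Fin g → ℂ)}
    {X : Matrix (Fin g ⊕ Fin g) (Fin g ⊕ Fin g) ℂ} (h : ∀ v, T (X *ᵥ v) = X *ᵥ T v) :
    LinearMap.toMatrix' T * X = X * LinearMap.toMatrix' T := by
  apply Matrix.toLin'.injective
  refine LinearMap.ext fun v => ?_
  rw [Matrix.toLin'_mul, Matrix.toLin'_mul, LinearMap.comp_apply, LinearMap.comp_apply,
    Matrix.toLin'_toMatrix', Matrix.toLin'_apply, Matrix.toLin'_apply, h]

theorem jline : JLine := by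
  intro g Z h hs hg U hU hn T hT u hu
  obtain ⟨A, hA, hfr, hc⟩ := cm_of_one h hs hg hU hn
  have hcm : HasCM Z := ⟨A, hA, hfr, hc⟩
  obtain ⟨π, h1, h2, h3⟩ := h.cred U hU.2.1
  have h4 := comm_of_cm' h hs hg hcm (P := LinearMap.toMatrix' T) (Q := LinearMap.toMatrix' π)
    (fun X hX => toMatrix'_comm (hT X hX)) (fun X hX => toMatrix'_comm (h1 X hX))
  have h5 : T (π u) = π (T u) := by
    have h6 := congrArg (fun M : Matrix (Fin g ⊕ Fin g) (Fin g ⊕ Fin g) ℂ => M *ᵥ u) h4
    simp only [← mulVec_mulVec] at h6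
    rwa [LinearMap.toMatrix'_mulVec, LinearMap.toMatrix'_mulVec, LinearMap.toMatrix'_mulVec,
      LinearMap.toMatrix'_mulVec] at h6
  rw [h3 u hu] at h5
  rw [h5]
  exact h2 _

theorem jcm : JCM := by
  intro g Z h hs hg hcm U hU
  obtain ⟨A, hA, hfr, hc⟩ := hcm
  refine finrank_one_of_comm ?_ hU
  -- the complex span of `A`
  let S : Submodule ℂ (Matrix (Fin g ⊕ Fin g) (Fin g ⊕ Fin g) ℂ) :=
    Submodule.span ℂ {X | ∃ a ∈ A, X = qm a}
  have hSS : ∀ X ∈ S, ∀ Y ∈ S, X * Y = Y * X := by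
    intro X hX Y hY
    induction hX using Submodule.span_induction with
    | mem X hX =>
      induction hY using Submodule.span_induction with
      | mem Y hY =>
        obtain ⟨a, ha, rfl⟩ := hX
        obtain ⟨b, hb, rfl⟩ := hY
        rw [← qm_mul, ← qm_mul, hA a ha b hb]
      | zero => rw [mul_zero, zero_mul]
      | add Y Y' _ _ hY hY' => rw [mul_add, add_mul, hY, hY']
      | smul c Y _ hY => rw [mul_smul_comm, smul_mul_assoc, hY]
    | zero => rw [mul_zero, zero_mul]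
    | add X X' _ _ hX hX' => rw [mul_add, add_mul, hX, hX']
    | smul c X _ hX => rw [mul_smul_comm, smul_mul_assoc, hX]
  let w0 : Fin g ⊕ Fin g → ℂ := fun i => ((e0 hg i : ℚ) : ℂ)
  have hval : ∀ w : Fin g ⊕ Fin g → ℂ, ∃ Y ∈ S, Y *ᵥ w0 = w := by
    intro w
    have h1 : ∀ i, ∃ a ∈ A, a *ᵥ e0 hg = Pi.single i 1 := fun i => exists_value h hs hg hfr hc _
    choose a ha hai using h1
    refine ⟨∑ i, w i • qm (a i), Submodule.sum_mem _ fun i _ => Submodule.smul_mem _ _
      (Submodule.subset_span ⟨a i, ha i, rfl⟩), ?_⟩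
    rw [Matrix.sum_mulVec]
    funext j
    rw [Finset.sum_apply]
    have h2 : ∀ i, ((w i • qm (a i)) *ᵥ w0) j = if j = i then w i else 0 := by
      intro i
      rw [smul_mulVec, qm_mulVec, hai]
      simp only [Pi.smul_apply, smul_eq_mul, Pi.single_apply]
      split_ifs <;> simp
    rw [Finset.sum_congr rfl fun i _ => h2 i]
    simp
  have hcomm : ∀ X ∈ LZ Z, ∀ Y ∈ S, X * Y = Y * X := by
    intro X hX Y hY
    induction hY using Submodule.span_induction with
    | mem Y hY =>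
      obtain ⟨a, ha, rfl⟩ := hY
      exact (comm_LZ (hc a ha) X hX).symm
    | zero => rw [mul_zero, zero_mul]
    | add Y Y' _ _ hY hY' => rw [mul_add, add_mul, hY, hY']
    | smul c Y _ hY => rw [mul_smul_comm, smul_mul_assoc, hY]
  have hmem : ∀ X ∈ LZ Z, X ∈ S := by
    intro X hX
    obtain ⟨Y, hY, hYw⟩ := hval (X *ᵥ w0)
    have h1 : X = Y := by
      apply Matrix.toLin'.injective
      refine LinearMap.ext fun v => ?_
      rw [toLin'_apply, toLin'_apply]
      obtain ⟨V, hV, rfl⟩ := hval v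
      rw [mulVec_mulVec, mulVec_mulVec, hcomm X hX V hV, hSS Y hY V hV, ← mulVec_mulVec,
        ← mulVec_mulVec, hYw]
    rw [h1]
    exact hY
  exact fun X hX Y hY => hSS X (hmem X hX) Y (hmem Y hY)

end

end Pool.Agent.Y145.P
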